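import Mathlib
import Pool.Agent.Helper74.UB.Goals3

/-! Packet UB-HOSTCAP (MP_cd9ac2_co): the number of vertices of the caps. -/

set_option autoImplicit false

namespace Pool.Agent.Helper11.UB

open Finset Pool.Agent.Helper74.UB
open scoped Classical

lemma two_pow_mul_mod (K l : ℕ) (hl : l ≤ K) (a : ℕ) :
    (2 : ZMod (3 * 2 ^ K)) ^ l * (a : ZMod (3 * 2 ^ K)) =
      (2 : ZMod (3 * 2 ^ K)) ^ l * ((a % (3 * 2 ^ (K - l)) : ℕ) : ZMod (3 * 2 ^ K)) := by
  have h1 : (a : ℕ) = 3 * 2 ^ (K - l) * (a / (3 * 2 ^ (K - l))) + a % (3 * 2 ^ (K - l)) :=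
    (Nat.div_add_mod _ _).symm
  have h2 : (2 : ZMod (3 * 2 ^ K)) ^ l * ((3 * 2 ^ (K - l) : ℕ) : ZMod (3 * 2 ^ K)) = 0 := by
    have : (2 : ZMod (3 * 2 ^ K)) ^ l * ((3 * 2 ^ (K - l) : ℕ) : ZMod (3 * 2 ^ K)) =
        ((3 * 2 ^ K : ℕ) : ZMod (3 * 2 ^ K)) := by
      have h3 : (3 * 2 ^ K : ℕ) = 2 ^ l * (3 * 2 ^ (K - l)) := by
        rw [mul_left_comm, ← pow_add, Nat.add_sub_cancel' hl]
      have h4 : ((3 * 2 ^ K : ℕ) : ZMod (3 * 2 ^ K)) =
          ((2 ^ l * (3 * 2 ^ (K - l)) : ℕ) : ZMod (3 * 2 ^ K)) :=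
        congrArg (fun n : ℕ => (n : ZMod (3 * 2 ^ K))) h3
      rw [h4]
      push_cast
      ring
    rw [this, ZMod.natCast_self]
  conv_lhs => rw [h1]
  rw [Nat.cast_add, Nat.cast_mul, mul_add, ← mul_assoc, h2, zero_mul, zero_add]

lemma div_card (K l : ℕ) (hl : l ≤ K) [NeZero (3 * 2 ^ K)] :
    (univ.filter fun x : ZMod (3 * 2 ^ K) => (2 : ZMod (3 * 2 ^ K)) ^ l ∣ x).card ≤
      3 * 2 ^ (K - l) := by
  have hsub : (univ.filter fun x : ZMod (3 * 2 ^ K) => (2 : ZMod (3 * 2 ^ K)) ^ l ∣ x) ⊆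
      (range (3 * 2 ^ (K - l))).image
        (fun j : ℕ => (2 : ZMod (3 * 2 ^ K)) ^ l * (j : ZMod (3 * 2 ^ K))) := by
    intro x hx
    obtain ⟨c, rfl⟩ := (mem_filter.1 hx).2
    refine mem_image.2 ⟨c.val % (3 * 2 ^ (K - l)), mem_range.2 (Nat.mod_lt _ (by positivity)), ?_⟩
    rw [← two_pow_mul_mod K l hl, ZMod.natCast_zmod_val]
  refine (card_le_card hsub).trans ?_
  exact card_image_le.trans (by simp)

lemma row_card (K h : ℕ) (r : ℤ) (l : ℕ) (hl : l ≤ K) (hr : lev h r = l) :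
    (univ.filter fun v : HV K h => v.1.1 = r).card ≤ 3 * 2 ^ (K - l) := by
  have : NeZero (3 * 2 ^ K) := ⟨by positivity⟩
  refine le_trans ?_ (div_card K l hl)
  refine card_le_card_of_injOn (fun v => v.1.2) ?_ ?_
  · intro v hv
    have h1 : v.1.1 = r := (mem_filter.1 hv).2
    have h2 := v.2.2.2
    rw [h1, hr] at h2
    simpa using h2
  · intro v hv w hw hvw
    have h1 : v.1.1 = r := (mem_filter.1 hv).2
    have h2 : w.1.1 = r := (mem_filter.1 hw).2
    exact Subtype.ext (Prod.ext (h1.trans h2.symm) hvw)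

lemma geo (K : ℕ) : ∑ j ∈ range K, 2 ^ (K - (j + 1)) ≤ 2 ^ K := by
  have h1 : ∀ n : ℕ, ∑ j ∈ range n, 2 ^ j + 1 = 2 ^ n := by
    intro n
    induction n with
    | zero => simp
    | succ n ih => rw [sum_range_succ, pow_succ]; omega
  have h2 : ∑ j ∈ range K, 2 ^ (K - (j + 1)) = ∑ j ∈ range K, 2 ^ j := by
    rw [← sum_range_reflect (fun j => 2 ^ j) K]
    refine sum_congr rfl (fun j _ => ?_)
    congr 1
    omega
  rw [h2]
  have := h1 K
  omega

theorem hostcap : StmtHostCap := by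
  intro K h _ _
  have hsub : (univ.filter fun v : HV K h => (hostL K h).row v < 0 ∨ (h : ℤ) < (hostL K h).row v) ⊆
      (range K).biUnion (fun j => (univ.filter fun v : HV K h => v.1.1 = -((j : ℤ) + 1)) ∪
        (univ.filter fun v : HV K h => v.1.1 = (h : ℤ) + ((j : ℤ) + 1))) := by
    intro v hv
    have h1 := (mem_filter.1 hv).2
    have hlo := v.2.1
    have hhi := v.2.2.1
    rw [mem_biUnion]
    rcases h1 with h1 | h1
    · have h1' : v.1.1 < 0 := h1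
      refine ⟨(-v.1.1 - 1).toNat, mem_range.2 (by omega), mem_union_left _ ?_⟩
      refine mem_filter.2 ⟨mem_univ _, ?_⟩
      omega
    · have h1' : (h : ℤ) < v.1.1 := h1
      refine ⟨(v.1.1 - h - 1).toNat, mem_range.2 (by omega), mem_union_right _ ?_⟩
      refine mem_filter.2 ⟨mem_univ _, ?_⟩
      omega
  refine (card_le_card hsub).trans (card_biUnion_le.trans ?_)
  calc ∑ j ∈ range K, ((univ.filter fun v : HV K h => v.1.1 = -((j : ℤ) + 1)) ∪
        (univ.filter fun v : HV K h => v.1.1 = (h : ℤ) + ((j : ℤ) + 1))).card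
      ≤ ∑ j ∈ range K, 6 * 2 ^ (K - (j + 1)) := by
        refine sum_le_sum (fun j hj => ?_)
        have hj' := mem_range.1 hj
        refine (card_union_le _ _).trans ?_
        have h1 := row_card K h (-((j : ℤ) + 1)) (j + 1) hj' (by unfold lev; omega)
        have h2 := row_card K h ((h : ℤ) + ((j : ℤ) + 1)) (j + 1) hj' (by unfold lev; omega)
        omega
    _ = 6 * ∑ j ∈ range K, 2 ^ (K - (j + 1)) := by rw [mul_sum]
    _ ≤ 6 * 2 ^ K := Nat.mul_le_mul_left _ (geo K)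
    _ = 2 * (3 * 2 ^ K) := by ring

end Pool.Agent.Helper11.UB
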